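import Pool.Agent.H89.FM.Targets2
import Pool.Agent.H50.CN.ACT

/-!
Module BIV: the twisted sums are invariant.
-/

set_option autoImplicit false

open MeasureTheory Set Filter
open scoped Real Matrix MatrixGroups

namespace Pool.Agent.H34.FM

open Pool.Agent.H31.CN Pool.Agent.H89.FM

theorem gv_mul (g h : SL(2, ℤ)) (v : ℤ × ℤ) : gv g (gv h v) = gv (g * h) v :=
  ((Pool.Agent.H50.CN.pf_ACT 0 g h v).2.2.2.2.1).symm

theorem gv_one (v : ℤ × ℤ) : gv 1 v = v := by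
  unfold gv
  ext <;> simp

/-- the automorphism of `ℤ × ℤ` given by `g` -/
def eg (g : SL(2, ℤ)) : (ℤ × ℤ) ≃+ (ℤ × ℤ) where
  toFun := gv g
  invFun := gv g⁻¹
  left_inv v := by rw [gv_mul, inv_mul_cancel, gv_one]
  right_inv v := by rw [gv_mul, mul_inv_cancel, gv_one]
  map_add' v w := by
    unfold gv
    refine Prod.ext ?_ ?_
    · simp only [Prod.fst_add, Prod.snd_add]
      ring
    · simp only [Prod.fst_add, Prod.snd_add]
      ring

theorem eg_apply (g : SL(2, ℤ)) (v : ℤ × ℤ) : eg g v = gv g v := rfl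

/-- the image of a lattice -/
def im (g : SL(2, ℤ)) (L : AddSubgroup (ℤ × ℤ)) : AddSubgroup (ℤ × ℤ) := L.map (eg g).toAddMonoidHom

theorem mem_im (g : SL(2, ℤ)) (L : AddSubgroup (ℤ × ℤ)) (v : ℤ × ℤ) : gv g v ∈ im g L ↔ v ∈ L := by
  unfold im
  rw [AddSubgroup.mem_map]
  constructor
  · rintro ⟨w, hw, h⟩
    have h1 : w = v := (eg g).injective h
    rw [← h1]
    exact hw
  · intro h
    exact ⟨v, h, rfl⟩

theorem im_im (g h : SL(2, ℤ)) (L : AddSubgroup (ℤ × ℤ)) : im g (im h L) = im (g * h) L := by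
  ext v
  have h1 : v = gv g (gv h (gv (g * h)⁻¹ v)) := by
    rw [gv_mul, gv_mul, mul_inv_cancel, gv_one]
  rw [h1, mem_im, mem_im, gv_mul g h, mem_im]

theorem im_one (L : AddSubgroup (ℤ × ℤ)) : im 1 L = L := by
  ext v
  have h := mem_im 1 L v
  rw [gv_one] at h
  exact h

theorem index_im (g : SL(2, ℤ)) (L : AddSubgroup (ℤ × ℤ)) : (im g L).index = L.index := by
  unfold im
  exact AddSubgroup.index_map_of_bijective (f := (eg g).toAddMonoidHom) (eg g).bijective L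

theorem Dv_im (g : SL(2, ℤ)) (n : ℕ) (L : AddSubgroup (ℤ × ℤ)) (Q : QF) : Dv n L (act Q g) ↔ Dv n (im g L) Q := by
  constructor
  · intro h w hw
    have h1 : w = gv g (gv g⁻¹ w) := by rw [gv_mul, mul_inv_cancel, gv_one]
    rw [h1] at hw ⊢
    rw [← Pool.Agent.H50.CN.val_act]
    exact h _ ((mem_im g L _).1 hw)
  · intro h v hv
    rw [Pool.Agent.H50.CN.val_act]
    exact h _ ((mem_im g L v).2 hv)

theorem gv_ne (g : SL(2, ℤ)) (v : ℤ × ℤ) : gv g v ≠ 0 ↔ v ≠ 0 := by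
  have h : gv g v = 0 ↔ v = 0 := (eg g).map_eq_zero_iff
  exact not_congr h

theorem act_pos (Q : QF) (g : SL(2, ℤ)) (h1 : 0 < Q.1) (h2 : 0 < dsc Q) : 0 < (act Q g).1 := by
  have h3 : ((dsc Q).toNat : ℤ) = dsc Q := Int.toNat_of_nonneg h2.le
  have h4 : 0 < (dsc Q).toNat := by omega
  have h5 : Q ∈ FD (dsc Q).toNat := ⟨h1, h3.symm⟩
  exact (((Pool.Agent.H50.CN.pf_ACT Q g 1 0).2.2.2.2.2 _ h4 h5).1).1

theorem Ez_im (hQZV : T_QZV) (s : ℂ) (n : ℕ) (L : AddSubgroup (ℤ × ℤ)) (Q : QF) (g : SL(2, ℤ)) (h1 : 0 < Q.1)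
    (h2 : 0 < dsc Q) :
    Ez s n L (zx (act Q g)) (zy (act Q g)) = Ez s n (im g L) (zx Q) (zy Q) := by
  classical
  have hd : dsc (act Q g) = dsc Q := Pool.Agent.H50.CN.dsc_act Q g
  unfold Ez
  rw [← (eg g).toEquiv.tsum_eq (fun w : ℤ × ℤ =>
    if w ∈ im g L ∧ w ≠ 0 then Kk 1 s (qz (zx Q) (zy Q) w / n) else 0)]
  refine tsum_congr fun v => ?_
  have e1 : (eg g).toEquiv v = gv g v := rfl
  rw [e1]
  have e2 : qz (zx (act Q g)) (zy (act Q g)) v = qz (zx Q) (zy Q) (gv g v) := by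
    rw [hQZV (act Q g) v (act_pos Q g h1 h2) (by rw [hd]; exact h2), hQZV Q (gv g v) h1 h2, hd,
      Pool.Agent.H50.CN.val_act]
  by_cases h : v ∈ L ∧ v ≠ 0
  · rw [if_pos h, if_pos ⟨(mem_im g L v).2 h.1, (gv_ne g v).2 h.2⟩, e2]
  · rw [if_neg h, if_neg (fun h' => h ⟨(mem_im g L v).1 h'.1, (gv_ne g v).1 h'.2⟩)]

open Classical in
theorem pf_BIV (hQZV : T_QZV) (hFLS : T_FLS) : T_BIV := by
  intro s α N Q g h1 h2
  refine ⟨act_pos Q g h1 h2, Pool.Agent.H50.CN.dsc_act Q g, ?_⟩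
  unfold Bf
  refine Finset.sum_congr rfl fun n hn => ?_
  have hn1 : 1 ≤ n := by
    unfold Sq at hn
    rw [Finset.mem_filter, Finset.mem_Icc] at hn
    exact hn.1.1
  congr 1
  have hmem : ∀ L : AddSubgroup (ℤ × ℤ), im g L ∈ Ls n ↔ L ∈ Ls n := by
    intro L
    rw [(hFLS n _ hn1).1, (hFLS n L hn1).1, index_im]
  refine Finset.sum_nbij' (fun L => im g L) (fun L => im g⁻¹ L) ?_ ?_ ?_ ?_ ?_
  · intro L hL
    rw [Finset.mem_filter] at hL ⊢
    exact ⟨(hmem L).2 hL.1, (Dv_im g n L Q).1 hL.2⟩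
  · intro L hL
    rw [Finset.mem_filter] at hL ⊢
    have e : im g (im g⁻¹ L) = L := by rw [im_im, mul_inv_cancel, im_one]
    refine ⟨(hmem _).1 (by rw [e]; exact hL.1), (Dv_im g n _ Q).2 ?_⟩
    rw [e]
    exact hL.2
  · intro L _
    change im g⁻¹ (im g L) = L
    rw [im_im, inv_mul_cancel, im_one]
  · intro L _
    change im g (im g⁻¹ L) = L
    rw [im_im, mul_inv_cancel, im_one]
  · intro L _
    exact Ez_im hQZV s n L Q g h1 h2

end Pool.Agent.H34.FM
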